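import Pool.Agent.H70.Phi

namespace Pool.Agent.Results.MP_078f6d_al.Positive

open Pool.Agent.H70.Phi

theorem result {k H I : Type*} [Field k] [Ring H] [HopfAlgebra k H] (ι : k →+* ℂ)
    (B : Module.Basis I k H) (h : SetTheoretic B) : ∃ B' : Module.Basis I k H, Positive ι B' :=
  main ι h

end Pool.Agent.Results.MP_078f6d_al.Positive
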